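import Pool.Agent.H23.NVK.MTargets

/-!
# nvk_modules, row M_SUM: convergence and partial sums
-/

set_option autoImplicit false

namespace Pool.Agent.H68.NVK

open Finset Pool.Agent.H23.NVK

section

variable {α : Type} {N : α → ℕ} {ρ δ : ℝ}

theorem card_le' (h : AxA N ρ δ) :
    ∃ K : ℝ, 0 < K ∧ ∀ y : ℝ, 1 ≤ y → ((FM N y).card : ℝ) ≤ K * y := by
  obtain ⟨C, hC, hy⟩ := h.cnt
  refine ⟨ρ + C, by linarith [h.rho], fun y h1 => ?_⟩
  have h2 := (abs_le.1 (hy y h1)).2
  have h3 : y ^ (1 - δ) ≤ y ^ (1 : ℝ) :=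
    Real.rpow_le_rpow_of_exponent_le h1 (by linarith [h.del])
  rw [Real.rpow_one] at h3
  nlinarith

/-- The partial sums. -/
noncomputable def FF (N : α → ℕ) (s y : ℝ) : ℝ := ∑ n ∈ FM N y, (nF N n : ℝ) ^ (-s)

theorem FF_mono (h : AxA N ρ δ) (s : ℝ) {y z : ℝ} (hyz : y ≤ z) : FF N s y ≤ FF N s z := by
  refine sum_le_sum_of_subset_of_nonneg ?_ fun n _ _ => Real.rpow_nonneg (by positivity) _
  intro n hn
  rw [h.mem_FM] at hn ⊢
  exact hn.trans hyz

theorem FF_block (h : AxA N ρ δ) (s : ℝ) : ∃ C : ℝ, 0 < C ∧ ∀ j : ℕ,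
    FF N s (2 ^ j) ≤ C * ∑ i ∈ range (j + 1), ((2 : ℝ) ^ (1 - s)) ^ i := by
  classical
  obtain ⟨K, hK, hK2⟩ := card_le' h
  have h2s : 0 < (2 : ℝ) ^ (-s) := Real.rpow_pos_of_pos (by norm_num) _
  obtain ⟨q, hqd⟩ : ∃ q : ℝ, q = (2 : ℝ) ^ (1 - s) := ⟨_, rfl⟩
  have hq : 0 < q := by rw [hqd]; exact Real.rpow_pos_of_pos (by norm_num) _
  rw [← hqd]
  refine ⟨|FF N s 1| + 2 * K * (1 + 2 ^ (-s)) / q, by positivity, fun j => ?_⟩
  induction j with
  | zero =>
    rw [pow_zero, zero_add, range_one, sum_singleton, pow_zero, mul_one]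
    have := le_abs_self (FF N s 1)
    have : 0 < 2 * K * (1 + (2 : ℝ) ^ (-s)) / q := by positivity
    linarith
  | succ j ih =>
    rw [sum_range_succ, mul_add]
    have hj : (0 : ℝ) < 2 ^ j := by positivity
    have hsub : FM N ((2 : ℝ) ^ j) ⊆ FM N ((2 : ℝ) ^ (j + 1)) := by
      intro n hn
      rw [h.mem_FM] at hn ⊢
      refine hn.trans ?_
      rw [pow_succ]
      linarith
    have e1 : FF N s (2 ^ (j + 1)) = ∑ n ∈ FM N ((2 : ℝ) ^ (j + 1)) \ FM N ((2 : ℝ) ^ j),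
        (nF N n : ℝ) ^ (-s) + FF N s (2 ^ j) := by
      unfold FF
      rw [sum_sdiff hsub]
    have e2 : ∑ n ∈ FM N ((2 : ℝ) ^ (j + 1)) \ FM N ((2 : ℝ) ^ j), (nF N n : ℝ) ^ (-s) ≤
        (FM N ((2 : ℝ) ^ (j + 1)) \ FM N ((2 : ℝ) ^ j)).card •
          ((1 + 2 ^ (-s)) * ((2 : ℝ) ^ j) ^ (-s)) := by
      refine sum_le_card_nsmul _ _ _ fun n hn => ?_
      rw [mem_sdiff, h.mem_FM, h.mem_FM, not_le] at hn
      obtain ⟨a1, a2⟩ := hn
      have a3 : 0 < ((2 : ℝ) ^ j) ^ (-s) := Real.rpow_pos_of_pos hj _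
      rcases le_total 0 s with hs | hs
      · have a4 : (nF N n : ℝ) ^ (-s) ≤ ((2 : ℝ) ^ j) ^ (-s) :=
          Real.rpow_le_rpow_of_nonpos hj a2.le (by linarith)
        nlinarith
      · have a4 : (nF N n : ℝ) ^ (-s) ≤ ((2 : ℝ) ^ (j + 1)) ^ (-s) :=
          Real.rpow_le_rpow (by positivity) a1 (by linarith)
        rw [pow_succ, Real.mul_rpow hj.le (by norm_num)] at a4
        nlinarith
    have e3 : ((FM N ((2 : ℝ) ^ (j + 1)) \ FM N ((2 : ℝ) ^ j)).card : ℝ) ≤ K * 2 ^ (j + 1) := by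
      refine le_trans ?_ (hK2 _ (one_le_pow₀ (by norm_num)))
      exact_mod_cast card_le_card sdiff_subset
    rw [nsmul_eq_mul] at e2
    have e4 : (0 : ℝ) ≤ (1 + 2 ^ (-s)) * ((2 : ℝ) ^ j) ^ (-s) := by positivity
    have e5 := e2.trans (mul_le_mul_of_nonneg_right e3 e4)
    have b1 : q ^ j = 2 ^ j * ((2 : ℝ) ^ j) ^ (-s) := by
      rw [hqd, ← Real.rpow_natCast, ← Real.rpow_natCast, ← Real.rpow_mul (by norm_num),
        ← Real.rpow_mul (by norm_num), ← Real.rpow_add (by norm_num)]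
      congr 1
      ring
    have e6 : K * 2 ^ (j + 1) * ((1 + 2 ^ (-s)) * ((2 : ℝ) ^ j) ^ (-s)) =
        2 * K * (1 + 2 ^ (-s)) / q * q ^ (j + 1) := by
      rw [pow_succ q, b1, pow_succ]
      field_simp
    have e7 : 0 ≤ |FF N s 1| * q ^ (j + 1) := by positivity
    rw [e1]
    rw [e6] at e5
    linarith

theorem geom_le {q : ℝ} (hq : 1 < q) (j : ℕ) : ∑ i ∈ range j, q ^ i ≤ q ^ j / (q - 1) := by
  rw [geom_sum_eq hq.ne']
  exact div_le_div_of_nonneg_right (by linarith) (by linarith)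

theorem sum_a (h : AxA N ρ δ) {s : ℝ} (hs : 1 < s) :
    Summable (fun n : α →₀ ℕ => (nF N n : ℝ) ^ (-s)) := by
  obtain ⟨C, hC, hb⟩ := FF_block h s
  set q : ℝ := (2 : ℝ) ^ (1 - s) with hqd
  have hq : 0 < q := Real.rpow_pos_of_pos (by norm_num) _
  have hq1 : q < 1 := Real.rpow_lt_one_of_one_lt_of_neg (by norm_num) (by linarith)
  refine summable_of_sum_le (c := C * (1 - q)⁻¹)
    (fun n => Real.rpow_nonneg (by positivity) _) fun u => ?_
  obtain ⟨j, hj⟩ := pow_unbounded_of_one_lt (∑ n ∈ u, (nF N n : ℝ)) (one_lt_two (α := ℝ))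
  have h1 : ∑ n ∈ u, (nF N n : ℝ) ^ (-s) ≤ FF N s (2 ^ j) := by
    refine sum_le_sum_of_subset_of_nonneg ?_ fun n _ _ => Real.rpow_nonneg (by positivity) _
    intro n hn
    rw [h.mem_FM]
    refine le_trans ?_ hj.le
    exact single_le_sum (f := fun n => (nF N n : ℝ)) (fun _ _ => by positivity) hn
  refine h1.trans ((hb j).trans (mul_le_mul_of_nonneg_left ?_ hC.le))
  have h2 := (summable_geometric_of_lt_one hq.le hq1).sum_le_tsum (range (j + 1))
    fun i _ => by positivity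
  rwa [tsum_geometric_of_lt_one hq.le hq1] at h2

theorem near {y : ℝ} (hy : 1 ≤ y) : ∃ j : ℕ, (2 : ℝ) ^ j ≤ y ∧ y < 2 ^ (j + 1) :=
  exists_nat_pow_near hy one_lt_two

end

theorem pf_SUM : T_SUM := by
  intro α N ρ δ h
  refine ⟨fun s hs => sum_a h hs, ?_, ?_, ?_⟩
  · intro s j hs
    obtain ⟨e, he⟩ : ∃ e : ℝ, e = (s - 1) / (2 * (j + 1)) := ⟨_, rfl⟩
    have he0 : 0 < e := by
      rw [he]
      have : 0 < s - 1 := by linarith
      positivity
    have hej : e * j ≤ (s - 1) / 2 := by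
      rw [he, div_mul_eq_mul_div, div_le_div_iff₀ (by positivity) (by norm_num)]
      nlinarith
    have h1 := sum_a h (s := s - (s - 1) / 2) (by linarith)
    have h2 : Summable fun p : α => (N p : ℝ) ^ (-(s - (s - 1) / 2)) := by
      have h3 := h1.comp_injective (i := fun p : α => Finsupp.single p 1)
        fun p q hpq => (Finsupp.single_left_inj one_ne_zero).1 hpq
      refine h3.congr fun p => ?_
      simp only [Function.comp]
      rw [nF_single, pow_one]
    refine Summable.of_nonneg_of_le (fun p => ?_) (fun p => ?_) (h2.mul_left ((e⁻¹) ^ j))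
    · have hN : (1 : ℝ) ≤ N p := by
        have := h.two p
        exact_mod_cast (by omega : 1 ≤ N p)
      have := Real.log_nonneg hN
      positivity
    · have hN : (1 : ℝ) ≤ N p := by
        have := h.two p
        exact_mod_cast (by omega : 1 ≤ N p)
      have hN0 : (0 : ℝ) < N p := by linarith
      have a1 : Real.log (N p) ≤ (N p : ℝ) ^ e / e := Real.log_le_rpow_div hN0.le he0
      have a2 : Real.log (N p) ^ j ≤ ((N p : ℝ) ^ e / e) ^ j :=
        pow_le_pow_left₀ (Real.log_nonneg hN) a1 j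
      have a3 : ((N p : ℝ) ^ e / e) ^ j = (e⁻¹) ^ j * (N p : ℝ) ^ (e * j) := by
        rw [div_eq_mul_inv, mul_pow, Real.rpow_mul hN0.le, Real.rpow_natCast]
        ring
      have a4 : (N p : ℝ) ^ (e * j) ≤ (N p : ℝ) ^ ((s - 1) / 2) :=
        Real.rpow_le_rpow_of_exponent_le hN hej
      have a5 : 0 ≤ (N p : ℝ) ^ (-s) := Real.rpow_nonneg hN0.le _
      have a6 : 0 ≤ (e⁻¹) ^ j := by positivity
      calc Real.log (N p) ^ j * (N p : ℝ) ^ (-s) ≤
          ((e⁻¹) ^ j * (N p : ℝ) ^ ((s - 1) / 2)) * (N p : ℝ) ^ (-s) := by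
            refine mul_le_mul_of_nonneg_right ?_ a5
            rw [a3] at a2
            exact a2.trans (mul_le_mul_of_nonneg_left a4 a6)
        _ = (e⁻¹) ^ j * (N p : ℝ) ^ (-(s - (s - 1) / 2)) := by
            rw [mul_assoc, ← Real.rpow_add hN0]
            congr 2
            ring
  · intro s hs
    obtain ⟨C, hC, hb⟩ := FF_block h s
    set q : ℝ := (2 : ℝ) ^ (1 - s) with hqd
    have hq1 : 1 < q := Real.one_lt_rpow (by norm_num) (by linarith)
    have hq0 : 0 < q := by linarith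
    have hq2 : 0 < q - 1 := by linarith
    refine ⟨C * (q ^ 2 / (q - 1)), by positivity, fun y hy => ?_⟩
    obtain ⟨j, hj1, hj2⟩ := near hy
    have h1 := (FF_mono h s hj2.le).trans ((hb (j + 1)).trans
      (mul_le_mul_of_nonneg_left (geom_le hq1 (j + 1 + 1)) hC.le))
    have h2 : q ^ j ≤ y ^ (1 - s) := by
      have a1 : q ^ j = ((2 : ℝ) ^ j) ^ (1 - s) := by
        rw [hqd, ← Real.rpow_natCast, ← Real.rpow_natCast, ← Real.rpow_mul (by norm_num),
          ← Real.rpow_mul (by norm_num), mul_comm]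
      rw [a1]
      exact Real.rpow_le_rpow (by positivity) hj1 (by linarith)
    have h3 : C * (q ^ (j + 1 + 1) / (q - 1)) = C * (q ^ 2 / (q - 1)) * q ^ j := by
      rw [pow_succ, pow_succ]
      field_simp
    rw [h3] at h1
    exact h1.trans (mul_le_mul_of_nonneg_left h2 (by positivity))
  · obtain ⟨C, hC, hb⟩ := FF_block h 1
    refine ⟨C * 4, by positivity, fun y hy => ?_⟩
    obtain ⟨j, hj1, hj2⟩ := near hy
    have h1 := (FF_mono h 1 hj2.le).trans (hb (j + 1))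
    have e1 : ∑ n ∈ FM N y, 1 / (nF N n : ℝ) = FF N 1 y := by
      unfold FF
      refine sum_congr rfl fun n _ => ?_
      rw [Real.rpow_neg_one, one_div]
    rw [e1]
    refine h1.trans ?_
    rw [sub_self, Real.rpow_zero]
    simp only [one_pow, sum_const, card_range, nsmul_eq_mul, mul_one]
    have h2 : (j : ℝ) * Real.log 2 ≤ Real.log y := by
      rw [← Real.log_pow]
      exact Real.log_le_log (by positivity) hj1
    have h3 : (1 : ℝ) / 2 ≤ Real.log 2 := by linarith [Real.log_two_gt_d9]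
    have h4 : (j : ℝ) ≤ 2 * Real.log y := by
      have : (0 : ℝ) ≤ j := by positivity
      nlinarith
    have h5 : 0 ≤ Real.log y := Real.log_nonneg hy
    push_cast
    nlinarith

end Pool.Agent.H68.NVK
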