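import Pool.Agent.H23.NVK.ITargets

/-!
# nvk_modules, row M_BRG: nonzero ideals and the free commutative monoid over the primes
-/

set_option autoImplicit false

namespace Pool.Agent.H68.NVK

open NumberField Pool.Agent.H23.NVK UniqueFactorizationMonoid
open Pool.Agent.H28.RC (PrI)

section

variable {k : Type} [Field k] [NumberField k]

theorem idF_zero : idF (0 : PrI k →₀ ℕ) = 1 := Finsupp.prod_zero_index

theorem idF_add (a b : PrI k →₀ ℕ) : idF (a + b) = idF a * idF b := by
  classical
  unfold idF
  exact Finsupp.prod_add_index' (fun p => pow_zero _) (fun p i j => pow_add _ _ _)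

theorem idF_single (P : PrI k) (j : ℕ) : idF (Finsupp.single P j) = P.1 ^ j := by
  unfold idF
  exact Finsupp.prod_single_index (pow_zero _)

/-- The multiset of the prime factors. -/
noncomputable def ms (n : PrI k →₀ ℕ) : Multiset (Ideal (𝓞 k)) :=
  (Finsupp.toMultiset n).map Subtype.val

theorem ms_prod (n : PrI k →₀ ℕ) : (ms n).prod = idF n := by
  induction n using Finsupp.induction_linear with
  | zero =>
    unfold ms
    rw [map_zero, Multiset.map_zero, Multiset.prod_zero, idF_zero]
  | add a b ha hb =>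
    unfold ms at ha hb ⊢
    rw [map_add, Multiset.map_add, Multiset.prod_add, ha, hb, idF_add]
  | single P j =>
    unfold ms
    rw [Finsupp.toMultiset_single, Multiset.map_nsmul, Multiset.prod_nsmul,
      Multiset.map_singleton, Multiset.prod_singleton, idF_single]

theorem ms_count [DecidableEq (Ideal (𝓞 k))] (n : PrI k →₀ ℕ) (P : PrI k) :
    (ms n).count P.1 = n P := by
  classical
  unfold ms
  rw [Multiset.count_map_eq_count' _ _ Subtype.val_injective, Finsupp.count_toMultiset]

theorem nf_idF (n : PrI k →₀ ℕ) : normalizedFactors (idF n) = ms n := by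
  rw [← ms_prod]
  refine normalizedFactors_prod_of_prime fun p hp => ?_
  unfold ms at hp
  rw [Multiset.mem_map] at hp
  obtain ⟨P, _, rfl⟩ := hp
  exact Ideal.prime_of_isPrime P.2.2 P.2.1

theorem idF_ne (n : PrI k →₀ ℕ) : idF n ≠ 0 := by
  unfold idF
  refine Finset.prod_ne_zero_iff.2 fun P _ => pow_ne_zero _ P.2.2

theorem pow_dvd (n : PrI k →₀ ℕ) (P : PrI k) (j : ℕ) : P.1 ^ j ∣ idF n ↔ j ≤ n P := by
  classical
  constructor
  · intro h
    rw [← idF_single, dvd_iff_normalizedFactors_le_normalizedFactors (idF_ne _) (idF_ne _),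
      nf_idF, nf_idF] at h
    have h2 := Multiset.count_le_of_le P.1 h
    rw [ms_count, ms_count, Finsupp.single_eq_same] at h2
    exact h2
  · intro h
    have e : n = Finsupp.single P j + (n - Finsupp.single P j) := by
      refine (add_tsub_cancel_of_le ?_).symm
      rw [Finsupp.single_le_iff]
      exact h
    rw [e, idF_add, idF_single]
    exact dvd_mul_right _ _

theorem idF_dvd (m n : PrI k →₀ ℕ) : idF m ∣ idF n ↔ ∀ P, m P ≤ n P := by
  constructor
  · intro h P
    exact (pow_dvd n P (m P)).1 (((pow_dvd m P (m P)).2 le_rfl).trans h)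
  · intro h
    have e : n = m + (n - m) := (add_tsub_cancel_of_le (show m ≤ n from h)).symm
    rw [e, idF_add]
    exact dvd_mul_right _ _

theorem idF_inj : Function.Injective (idF (k := k)) := by
  intro m n h
  ext P
  exact le_antisymm ((idF_dvd m n).1 h.dvd P) ((idF_dvd n m).1 h.symm.dvd P)

theorem idF_surj (I : Ideal (𝓞 k)) (hI : I ≠ ⊥) : ∃ n, idF n = I := by
  revert hI
  refine induction_on_prime (P := fun I : Ideal (𝓞 k) => I ≠ ⊥ → ∃ n, idF n = I) I ?_ ?_ ?_
  · intro h
    exact absurd rfl h
  · intro x hx _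
    rw [Ideal.isUnit_iff] at hx
    refine ⟨0, ?_⟩
    rw [idF_zero, hx, Ideal.one_eq_top]
  · intro a p ha hp ih _
    obtain ⟨n, hn⟩ := ih ha
    refine ⟨Finsupp.single ⟨p, Ideal.isPrime_of_prime hp, hp.ne_zero⟩ 1 + n, ?_⟩
    rw [idF_add, idF_single, hn, pow_one]

theorem idF_norm (n : PrI k →₀ ℕ) : Ideal.absNorm (idF n) = nF (NP k) n := by
  induction n using Finsupp.induction_linear with
  | zero => rw [idF_zero, nF_zero, map_one]
  | add a b ha hb => rw [idF_add, nF_add, map_mul, ha, hb]
  | single P j =>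
    rw [idF_single, nF_single, map_pow]
    rfl

theorem idF_ind (S : Finset (PrI k)) : idF (ind S) = ∏ P ∈ S, P.1 := by
  classical
  induction S using Finset.induction_on with
  | empty =>
    unfold ind
    rw [Finset.sum_empty, idF_zero, Finset.prod_empty]
  | insert p S hp ih =>
    unfold ind
    rw [Finset.sum_insert hp, Finset.prod_insert hp, idF_add, idF_single, pow_one]
    congr 1

end

theorem pf_BRG : T_BRG := by
  intro k _ _
  refine ⟨Equiv.ofBijective (fun n => (⟨idF n, idF_ne n⟩ : {I : Ideal (𝓞 k) // I ≠ ⊥}))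
    ⟨?_, ?_⟩, ?_, ?_, ?_, ?_, ?_, ?_, ?_⟩
  · intro m n h
    exact idF_inj (congrArg Subtype.val h)
  · rintro ⟨I, hI⟩
    obtain ⟨n, hn⟩ := idF_surj I hI
    exact ⟨n, Subtype.ext hn⟩
  · intro n
    rfl
  · intro n
    exact idF_norm n
  · intro m n
    exact idF_add m n
  · intro n P j
    exact pow_dvd n P j
  · intro m n
    exact idF_dvd m n
  · intro S
    exact idF_ind S
  · intro S
    rw [map_prod]
    rfl

end Pool.Agent.H68.NVK
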