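import Pool.Agent.H23.NVK.JTargets

/-!
# nvk_modules, row M_CRK: the singular constant over the primes of small norm
-/

set_option autoImplicit false

namespace Pool.Agent.H68.NVK

open NumberField
open Pool.Agent.H23.NVK
open Pool.Agent.H89.NV (np RA)

theorem pf_CRK (hCRR : T_CRR) (hAXK : T_AXK) (hEQD : T_EQD) : T_CRK := by
  intro k _ _ _ ε hε
  obtain ⟨δ, hA⟩ := hAXK k
  obtain ⟨h1, _, _, _, h5, _, h7, _⟩ := hEQD k δ hA
  obtain ⟨R₀, hR₀⟩ := hCRR _ (NP k) _ δ hA ε hε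
  set B : ℕ := Ideal.absNorm (Ideal.span {(2 : 𝓞 k)}) with hB
  have hB0 : B ≠ 0 := by
    rw [hB, Ne, Ideal.absNorm_eq_zero_iff, Ideal.span_singleton_eq_bot]
    exact two_ne_zero
  refine ⟨(B : ℝ) + ∑ P ∈ R₀, (NP k P : ℝ), fun R hR => ⟨?_, ?_⟩⟩
  · intro P hP
    rw [h5, hA.mem_PM]
    have h8 : P.1 ∣ Ideal.span {(2 : 𝓞 k)} := by
      rw [Ideal.dvd_span_singleton]
      exact hP
    have h9 : NP k P ≤ B := Nat.le_of_dvd (Nat.pos_of_ne_zero hB0) (Ideal.absNorm_dvd_absNorm_of_le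
      (Ideal.dvd_iff_le.1 h8))
    have h10 : (NP k P : ℝ) ≤ B := by exact_mod_cast h9
    have h11 : (0 : ℝ) ≤ ∑ P ∈ R₀, (NP k P : ℝ) := Finset.sum_nonneg fun _ _ => by positivity
    linarith
  · rw [h5, h7]
    have h8 : R₀ ⊆ PM (NP k) R := by
      intro P hP
      rw [hA.mem_PM]
      have h9 : (NP k P : ℝ) ≤ ∑ P ∈ R₀, (NP k P : ℝ) :=
        Finset.single_le_sum (f := fun P => (NP k P : ℝ)) (fun _ _ => by positivity) hP
      have h10 : (0 : ℝ) ≤ B := by positivity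
      linarith
    have h9 := hR₀ _ h8
    rw [Finset.prod_pow] at h9
    have h10 : ∏ P ∈ PM (NP k) R, (1 - 1 / np P) = ∏ P ∈ PM (NP k) R, (1 - 1 / (NP k P : ℝ)) :=
      Finset.prod_congr rfl fun P _ => by rw [h1]
    rw [h10]
    exact h9

end Pool.Agent.H68.NVK
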